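import Pool.Agent.P.MP_06cdda_gt.AltMain

open Matrix Pool.Agent.P.MP_06cdda_gt

theorem Pool.Agent.Results.MP_06cdda_gt.AlternatingGenus.result (k : ℕ) (hk : 1 ≤ k) :
    ∃ (m : ℕ) (q : ZMod m → Fin 3 → ℝ), IsKnot q ∧ IsAlternating q ∧
      ∃ (g : ℕ) (V : Matrix (Fin g) (Fin g) ℤ), IsSeifertMatrix q V ∧
        |(V + Vᵀ).det| = 4 * k + 1 ∧
        (sigPos ((V + Vᵀ).map ((↑) : ℤ → ℝ)).toQuadraticForm' : ℤ) -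
          sigNeg ((V + Vᵀ).map ((↑) : ℤ → ℝ)).toQuadraticForm' = 4 ∧
        (g = 4 ∨ (g = 6 ∧ IsSquare (4 * k + 1) ∧
          ∀ p : ℕ, p.Prime → p ∣ 4 * k + 1 → p % 4 = 1)) :=
  Pool.Agent.P.MP_06cdda_gt.alt_main k hk
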